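import Mathlib
import Pool.Agent.Helper144.L1.FW

/-!
# One block of the embedding: two far points with many common fibres

A dense set in `{0,1}^M × Z` contains, for some `x, y` at distance exactly `M / 2`, both `(x, z)`
and `(y, z)` for many `z`. The number of `z` is at least a power of the density, independently of
`M`: one looks only at blockwise constant translations by sets of blocks, of a fixed size, and uses
the theorem of Frankl and Wilson there.
-/

set_option autoImplicit false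

open Finset
open scoped symmDiff

namespace Pool.Agent.Q293.Emb

/-- ratio of two binomial coefficients -/
lemma choose_ratio (q : ℕ) (t : ℕ) (ht : 2 * t ≤ q) (hq : 1 ≤ q) :
    5 ^ t * (4 * q).choose (q - 1) ≤ 3 ^ t * (4 * q).choose (q - 1 + t) := by
  induction t with
  | zero => simp
  | succ t ih =>
    have h1 := ih (by omega)
    have h2 := Nat.choose_succ_right_eq (4 * q) (q - 1 + t)
    -- C(n, j+1) (j+1) = C(n, j) (n - j)
    have h3 : 5 * (q - 1 + t + 1) ≤ 3 * (4 * q - (q - 1 + t)) := by omega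
    have hpos : 0 < q - 1 + t + 1 := by omega
    have h4 : 5 * (4 * q).choose (q - 1 + t) ≤ 3 * (4 * q).choose (q - 1 + t + 1) := by
      refine Nat.le_of_mul_le_mul_right (c := q - 1 + t + 1) ?_ hpos
      calc 5 * (4 * q).choose (q - 1 + t) * (q - 1 + t + 1)
          = (4 * q).choose (q - 1 + t) * (5 * (q - 1 + t + 1)) := by ring
        _ ≤ (4 * q).choose (q - 1 + t) * (3 * (4 * q - (q - 1 + t))) := Nat.mul_le_mul_left _ h3
        _ = 3 * ((4 * q).choose (q - 1 + t) * (4 * q - (q - 1 + t))) := by ring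
        _ = 3 * (4 * q).choose (q - 1 + t + 1) * (q - 1 + t + 1) := by rw [← h2]; ring
    calc 5 ^ (t + 1) * (4 * q).choose (q - 1)
        = 5 * (5 ^ t * (4 * q).choose (q - 1)) := by ring
      _ ≤ 5 * (3 ^ t * (4 * q).choose (q - 1 + t)) := Nat.mul_le_mul_left _ h1
      _ = 3 ^ t * (5 * (4 * q).choose (q - 1 + t)) := by ring
      _ ≤ 3 ^ t * (3 * (4 * q).choose (q - 1 + t + 1)) := Nat.mul_le_mul_left _ h4
      _ = 3 ^ (t + 1) * (4 * q).choose (q - 1 + (t + 1)) := by ring_nf

lemma choose_mono (q : ℕ) (hq : 1 ≤ q) (j : ℕ) (hj : j ≤ q) :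
    (4 * q).choose (q - 1 + (q - j)) ≤ (4 * q).choose (q - 1 + q) := by
  induction j with
  | zero => simp
  | succ j ih =>
    refine le_trans ?_ (ih (by omega))
    have h1 : q - 1 + (q - (j + 1)) < 4 * q / 2 := by omega
    have h2 := Nat.choose_le_succ_of_lt_half_left h1
    have h3 : q - 1 + (q - (j + 1)) + 1 = q - 1 + (q - j) := by omega
    rwa [h3] at h2

lemma exp_le_five_third : Real.exp (1 / 2) ≤ 5 / 3 := by
  have h1 : Real.exp (1 / 2) ^ 2 = Real.exp 1 := by
    rw [← Real.exp_nat_mul]; norm_num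
  have h2 := Real.exp_one_lt_d9
  have h3 := Real.exp_pos (1 / 2)
  nlinarith

/-- the Frankl-Wilson bound is small compared with the size of the layer -/
lemma fw_small (a : ℕ) (ha : 1 ≤ a) (δ : ℝ) (hδ : 0 < δ) (h : 4 * Real.log (2 / δ) ≤ 2 ^ a) :
    ((4 * 2 ^ a).choose (2 ^ a - 1) : ℝ) ≤ δ / 2 * ((4 * 2 ^ a).choose (2 * 2 ^ a - 1) : ℝ) := by
  obtain ⟨b, rfl⟩ : ∃ b, a = b + 1 := ⟨a - 1, by omega⟩
  set q := 2 ^ (b + 1) with hq
  have hqb : q = 2 * 2 ^ b := by rw [hq, pow_succ]; ring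
  have hb : 1 ≤ 2 ^ b := Nat.one_le_two_pow
  have h1 := choose_ratio q (2 ^ b) (by omega) (by omega)
  have h2 := choose_mono q (by omega) (2 ^ b) (by omega)
  have e1 : q - 1 + (q - 2 ^ b) = q - 1 + 2 ^ b := by omega
  have e2 : q - 1 + q = 2 * q - 1 := by omega
  rw [e1, e2] at h2
  have h3 : 5 ^ 2 ^ b * (4 * q).choose (q - 1) ≤ 3 ^ 2 ^ b * (4 * q).choose (2 * q - 1) :=
    h1.trans (Nat.mul_le_mul_left _ h2)
  have h4 : (5 : ℝ) ^ 2 ^ b * ((4 * q).choose (q - 1) : ℝ) ≤
      (3 : ℝ) ^ 2 ^ b * ((4 * q).choose (2 * q - 1) : ℝ) := by exact_mod_cast h3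
  have h5 : 2 / δ ≤ (5 / 3 : ℝ) ^ 2 ^ b := by
    have e3 : Real.log (2 / δ) ≤ (2 : ℝ) ^ b / 2 := by
      have : (2 : ℝ) ^ (b + 1) = 2 * 2 ^ b := by rw [pow_succ]; ring
      linarith
    calc 2 / δ = Real.exp (Real.log (2 / δ)) := (Real.exp_log (by positivity)).symm
      _ ≤ Real.exp ((2 : ℝ) ^ b / 2) := Real.exp_le_exp.2 e3
      _ = Real.exp (1 / 2) ^ 2 ^ b := by
          rw [← Real.exp_nat_mul]; push_cast; ring_nf
      _ ≤ _ := pow_le_pow_left₀ (Real.exp_pos _).le exp_le_five_third _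
  have h6 : (0 : ℝ) < 3 ^ 2 ^ b := by positivity
  have h7 : (0 : ℝ) ≤ ((4 * q).choose (2 * q - 1) : ℝ) := Nat.cast_nonneg _
  have h8 : (0 : ℝ) ≤ ((4 * q).choose (q - 1) : ℝ) := Nat.cast_nonneg _
  rw [div_pow, div_le_div_iff₀ hδ h6] at h5
  -- 2 * 3^m ≤ 5^m δ
  have h9 : 2 * (3 : ℝ) ^ 2 ^ b * ((4 * q).choose (q - 1) : ℝ) ≤
      (3 : ℝ) ^ 2 ^ b * (δ * ((4 * q).choose (2 * q - 1) : ℝ)) := by
    calc 2 * (3 : ℝ) ^ 2 ^ b * ((4 * q).choose (q - 1) : ℝ)
        ≤ (5 ^ 2 ^ b * δ) * ((4 * q).choose (q - 1) : ℝ) := mul_le_mul_of_nonneg_right h5 h8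
      _ = δ * (5 ^ 2 ^ b * ((4 * q).choose (q - 1) : ℝ)) := by ring
      _ ≤ δ * ((3 : ℝ) ^ 2 ^ b * ((4 * q).choose (2 * q - 1) : ℝ)) :=
          mul_le_mul_of_nonneg_left h4 hδ.le
      _ = _ := by ring
  have h10 : (3 : ℝ) ^ 2 ^ b * (2 * ((4 * q).choose (q - 1) : ℝ)) ≤
      (3 : ℝ) ^ 2 ^ b * (δ * ((4 * q).choose (2 * q - 1) : ℝ)) := by linarith
  have h11 := le_of_mul_le_mul_left h10 h6
  linarith

variable {I Z : Type} [Fintype I] [DecidableEq I] [Fintype Z] [DecidableEq Z]

/-- translation of `u` by the union of the blocks in `S` -/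
def tr {n s : ℕ} (e : I ≃ Fin n × Fin s) (S : Finset (Fin n)) (u : I → Bool) : I → Bool :=
  fun i => xor (u i) (decide ((e i).1 ∈ S))

omit [Fintype I] [DecidableEq I] in
lemma tr_tr {n s : ℕ} (e : I ≃ Fin n × Fin s) (S : Finset (Fin n)) (u : I → Bool) :
    tr e S (tr e S u) = u := by
  funext i
  simp [tr]

omit [DecidableEq I] in
lemma dist_tr {n s : ℕ} (e : I ≃ Fin n × Fin s) (S T : Finset (Fin n)) (u : I → Bool) :
    hammingDist (tr e S u) (tr e T u) = (S ∆ T).card * s := by
  rw [hammingDist]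
  have h1 : (univ.filter fun i => tr e S u i ≠ tr e T u i) =
      ((S ∆ T) ×ˢ (univ : Finset (Fin s))).map e.symm.toEmbedding := by
    ext i
    rw [Finset.mem_filter, Finset.mem_map]
    simp only [tr, ne_eq, mem_univ, true_and, Finset.mem_product, Finset.mem_symmDiff,
      and_true, Equiv.coe_toEmbedding]
    constructor
    · intro h
      refine ⟨e i, ?_, by simp⟩
      by_cases h1 : (e i).1 ∈ S <;> by_cases h2 : (e i).1 ∈ T <;> simp_all
    · rintro ⟨p, hp, rfl⟩
      rw [Equiv.apply_symm_apply]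
      rcases hp with ⟨h1, h2⟩ | ⟨h1, h2⟩ <;> simp [h1, h2]
  rw [h1, Finset.card_map, Finset.card_product, Finset.card_univ, Fintype.card_fin]

theorem step (a s : ℕ) (ha : 1 ≤ a) (e : I ≃ Fin (4 * 2 ^ a) × Fin s) (δ : ℝ) (hδ : 0 < δ)
    (h : 4 * Real.log (2 / δ) ≤ 2 ^ a) [Nonempty Z] (D : Finset ((I → Bool) × Z))
    (hD : δ * ((Fintype.card (I → Bool) : ℝ) * Fintype.card Z) ≤ D.card) :
    ∃ x y : I → Bool, hammingDist x y = 2 * 2 ^ a * s ∧
      δ / 2 / 2 ^ (8 * 2 ^ a) * (Fintype.card Z : ℝ) ≤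
        ((univ.filter fun z => (x, z) ∈ D ∧ (y, z) ∈ D).card : ℝ) := by
  classical
  set q := 2 ^ a with hq
  set layer := powersetCard (2 * q - 1) (univ : Finset (Fin (4 * q))) with hlayer
  have hL : layer.card = (4 * q).choose (2 * q - 1) := by
    rw [hlayer, card_powersetCard, card_univ, Fintype.card_fin]
  set K := (4 * q).choose (q - 1) with hK
  have hKL : (K : ℝ) ≤ δ / 2 * (layer.card : ℝ) := by
    rw [hL]; exact fw_small a ha δ hδ h
  set C : (I → Bool) × Z → Finset (Finset (Fin (4 * q))) :=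
    fun p => layer.filter fun S => (tr e S p.1, p.2) ∈ D with hC
  -- double counting
  have hcount : ∑ p, (C p).card = layer.card * D.card := by
    have h1 : ∀ p, (C p).card = ∑ S ∈ layer, if (tr e S p.1, p.2) ∈ D then 1 else 0 := by
      intro p; rw [hC, Finset.card_filter]
    rw [Finset.sum_congr rfl fun p _ => h1 p, Finset.sum_comm]
    refine Finset.sum_const_nat fun S _ => ?_
    rw [← Finset.card_filter]
    refine Finset.card_bij' (fun p _ => (tr e S p.1, p.2)) (fun p _ => (tr e S p.1, p.2))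
      ?_ ?_ ?_ ?_
    · intro p hp; exact (mem_filter.1 hp).2
    · intro p hp
      rw [mem_filter]
      refine ⟨mem_univ _, ?_⟩
      simp only [tr_tr]
      exact hp
    · intro p _; simp only [tr_tr]
    · intro p _; simp only [tr_tr]
  set G := (univ : Finset ((I → Bool) × Z)).filter (fun p => K < (C p).card) with hG
  have hU : (Fintype.card ((I → Bool) × Z) : ℝ) =
      (Fintype.card (I → Bool) : ℝ) * Fintype.card Z := by
    rw [Fintype.card_prod]; push_cast; rfl
  have hUpos : (0 : ℝ) < (Fintype.card (I → Bool) : ℝ) * Fintype.card Z := by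
    have h1 : 0 < Fintype.card (I → Bool) := Fintype.card_pos
    have h2 : 0 < Fintype.card Z := Fintype.card_pos
    positivity
  have hsum : (∑ p, (C p).card) ≤ G.card * layer.card + Fintype.card ((I → Bool) × Z) * K := by
    have h1 : ∀ p : (I → Bool) × Z, (C p).card ≤ (if K < (C p).card then layer.card else 0) + K := by
      intro p
      split_ifs with h2
      · exact (Finset.card_le_card (Finset.filter_subset _ _)).trans (Nat.le_add_right _ _)
      · omega
    refine (Finset.sum_le_sum fun p _ => h1 p).trans ?_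
    rw [Finset.sum_add_distrib, Finset.sum_const, Finset.card_univ, smul_eq_mul,
      ← Finset.sum_filter, Finset.sum_const, smul_eq_mul]
  have hlpos : (0 : ℝ) < layer.card := by
    rw [hL, Nat.cast_pos]
    exact Nat.choose_pos (by omega)
  have hGcard : δ / 2 * ((Fintype.card (I → Bool) : ℝ) * Fintype.card Z) ≤ G.card := by
    rw [hcount] at hsum
    have h1 : (layer.card : ℝ) * D.card ≤ G.card * layer.card +
        (Fintype.card ((I → Bool) × Z) : ℝ) * K := by exact_mod_cast hsum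
    rw [hU] at h1
    have h2 : (layer.card : ℝ) * (δ * ((Fintype.card (I → Bool) : ℝ) * Fintype.card Z)) ≤
        layer.card * D.card := mul_le_mul_of_nonneg_left hD hlpos.le
    have h3 : ((Fintype.card (I → Bool) : ℝ) * Fintype.card Z) * K ≤
        ((Fintype.card (I → Bool) : ℝ) * Fintype.card Z) * (δ / 2 * layer.card) :=
      mul_le_mul_of_nonneg_left hKL hUpos.le
    have h4 : (layer.card : ℝ) * (δ / 2 * ((Fintype.card (I → Bool) : ℝ) * Fintype.card Z)) ≤
        layer.card * G.card := by nlinarith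
    exact le_of_mul_le_mul_left h4 hlpos
  -- popular pair
  set W : Finset (Fin (4 * q)) × Finset (Fin (4 * q)) → Finset ((I → Bool) × Z) := fun r =>
    if (r.1 ∆ r.2).card = 2 * q then
      univ.filter (fun p => (tr e r.1 p.1, p.2) ∈ D ∧ (tr e r.2 p.1, p.2) ∈ D) else ∅ with hW
  have hGW : G ⊆ (univ : Finset (Finset (Fin (4 * q)) × Finset (Fin (4 * q)))).biUnion W := by
    intro p hp
    rw [hG, mem_filter] at hp
    have h1 : ∃ S ∈ C p, ∃ T ∈ C p, S ≠ T ∧ (S ∩ T).card = q - 1 := by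
      by_contra hcon
      push Not at hcon
      have : Fact (Nat.Prime 2) := ⟨Nat.prime_two⟩
      have h2 := Pool.Agent.Helper144.L1.frankl_wilson 2 a (C p)
        (fun A hA => (mem_powersetCard.1 (mem_filter.1 hA).1).2)
        (fun A hA B hB hAB => hcon A hA B hB hAB)
      rw [Fintype.card_fin] at h2
      exact absurd hp.2 (not_lt.2 h2)
    obtain ⟨S, hS, T, hT, -, hST⟩ := h1
    rw [mem_filter] at hS hT
    have hSc := (mem_powersetCard.1 hS.1).2
    have hTc := (mem_powersetCard.1 hT.1).2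
    rw [mem_biUnion]
    refine ⟨(S, T), mem_univ _, ?_⟩
    have h3 : (S ∆ T).card = 2 * q := by
      have h4 : (S ∆ T).card = (S \ T).card + (T \ S).card := by
        rw [symmDiff_def, Finset.sup_eq_union, Finset.card_union_of_disjoint disjoint_sdiff_sdiff]
      have h5 := Finset.card_sdiff_add_card_inter S T
      have h6 := Finset.card_sdiff_add_card_inter T S
      rw [Finset.inter_comm T S] at h6
      have hqpos : 1 ≤ q := Nat.one_le_two_pow
      omega
    simp only [hW, h3, if_true, mem_filter, mem_univ, true_and]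
    exact ⟨hS.2, hT.2⟩
  have hsumW : (G.card : ℝ) ≤ ∑ r, ((W r).card : ℝ) := by
    exact_mod_cast (Finset.card_le_card hGW).trans Finset.card_biUnion_le
  have hpairs : (Fintype.card (Finset (Fin (4 * q)) × Finset (Fin (4 * q))) : ℝ) =
      2 ^ (8 * q) := by
    rw [Fintype.card_prod, Fintype.card_finset, Fintype.card_fin]
    push_cast
    rw [← pow_add]; ring_nf
  obtain ⟨r, -, hr⟩ := Finset.exists_le_of_sum_le (s := (univ : Finset
      (Finset (Fin (4 * q)) × Finset (Fin (4 * q))))) (f := fun _ => (G.card : ℝ) / 2 ^ (8 * q))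
      (g := fun r => ((W r).card : ℝ)) ⟨(∅, ∅), mem_univ _⟩ (by
        rw [Finset.sum_const, Finset.card_univ, nsmul_eq_mul, hpairs]
        refine le_trans (le_of_eq ?_) hsumW
        field_simp)
  have hGpos : (0 : ℝ) < G.card := lt_of_lt_of_le (by positivity) hGcard
  have hWpos : 0 < (W r).card := by
    have : (0 : ℝ) < (W r).card := lt_of_lt_of_le (by positivity) hr
    exact_mod_cast this
  have hcond : (r.1 ∆ r.2).card = 2 * q := by
    by_contra hcon
    simp only [hW, hcon, if_false, card_empty, lt_irrefl] at hWpos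
  have hWr : W r = univ.filter (fun p => (tr e r.1 p.1, p.2) ∈ D ∧ (tr e r.2 p.1, p.2) ∈ D) := by
    simp only [hW, hcond, if_true]
  have hWsum : ((W r).card : ℝ) = ∑ u : I → Bool,
      ((univ.filter fun z => (tr e r.1 u, z) ∈ D ∧ (tr e r.2 u, z) ∈ D).card : ℝ) := by
    rw [hWr, Finset.card_filter, Fintype.sum_prod_type]
    push_cast
    refine Finset.sum_congr rfl fun u _ => ?_
    rw [Finset.card_filter]
    push_cast
    rfl
  obtain ⟨u, -, hu⟩ := Finset.exists_le_of_sum_le (s := (univ : Finset (I → Bool)))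
      (f := fun _ => δ / 2 / 2 ^ (8 * q) * (Fintype.card Z : ℝ))
      (g := fun u => ((univ.filter fun z => (tr e r.1 u, z) ∈ D ∧ (tr e r.2 u, z) ∈ D).card : ℝ))
      ⟨fun _ => false, mem_univ _⟩ (by
        rw [← hWsum, Finset.sum_const, Finset.card_univ, nsmul_eq_mul]
        refine le_trans ?_ hr
        rw [le_div_iff₀ (by positivity)]
        refine le_trans (le_of_eq ?_) hGcard
        field_simp)
  refine ⟨tr e r.1 u, tr e r.2 u, ?_, hu⟩
  rw [dist_tr, hcond]

end Pool.Agent.Q293.Emb
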